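import Pool.Agent.helper70.M8.ChkF

set_option autoImplicit false

/-! # OCT2-JF: fast functions and tables -/

open MvPolynomial Set Filter Topology

namespace Oct

private theorem jf_mulS (a b S x : ℕ) : mulS a b S x = (a + b * 2 ^ S) * x := by
  show a * x + Nat.shiftLeft (b * x) S = _
  have h : Nat.shiftLeft (b * x) S = b * x * 2 ^ S := Nat.shiftLeft_eq (b * x) S
  rw [h]
  ring

private theorem jf_vrowF (M2 a b S : ℕ) (l : List ℤ) (CP : List ℕ) :
    vrowF M2 a b S l CP = vrow M2 (a + b * 2 ^ S) l CP := by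
  induction l generalizing CP with
  | nil => rfl
  | cons g l ih =>
    cases CP with
    | nil => rfl
    | cons c cs =>
      show term M2 g c + mulS a b S (vrowF M2 a b S l cs) =
        term M2 g c + (a + b * 2 ^ S) * vrow M2 (a + b * 2 ^ S) l cs
      rw [jf_mulS, ih]

private theorem jf_vrowsF (M1 M2 a b S : ℕ) (CP : List ℕ) (G : List (List ℤ)) :
    vrowsF M1 M2 a b S CP G = vrows M1 M2 (a + b * 2 ^ S) CP G := by
  induction G with
  | nil => rfl
  | cons l G ih =>
    show Nat.land (vrowF M2 a b S l CP) M1 :: vrowsF M1 M2 a b S CP G =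
      Nat.land (vrow M2 (a + b * 2 ^ S) l CP) M1 :: vrows M1 M2 (a + b * 2 ^ S) CP G
    rw [jf_vrowF, ih]

theorem vOfF_eq (B m n : ℕ) (G : List (List ℤ)) (a b : ℕ) :
    vOfF (pkOf B m n) G a b = vOf (pkOf B m n) G a b := by
  unfold vOfF vOf
  rw [jf_vrowsF]
  rfl

private theorem jf_shP (B x j : ℕ) : shP B x j = x * (1 + 2 ^ B) ^ j := by
  induction j with
  | zero => show x = _; simp
  | succ j ih =>
    show shP B x j + Nat.shiftLeft (shP B x j) B = _
    have h : Nat.shiftLeft (shP B x j) B = shP B x j * 2 ^ B := Nat.shiftLeft_eq _ B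
    rw [h, ih, pow_succ]
    ring

private theorem jf_pw_succ (c n : ℕ) : pw c (n + 1) = c ^ (n + 1) :: pw c n := by
  have h0 : ∀ n, ∃ l, pw c n = c ^ n :: l := by
    intro n
    induction n with
    | zero => exact ⟨[], by rw [pow_zero]; rfl⟩
    | succ n ih =>
      obtain ⟨l, hl⟩ := ih
      refine ⟨pw c n, ?_⟩
      show (List.rec (motive := fun _ => List ℕ) [] (fun a _ _ => (Nat.mul c a) :: pw c n)
        (pw c n) : List ℕ) = _
      rw [hl]
      show (c * c ^ n) :: (c ^ n :: l) = _
      rw [pow_succ, mul_comm]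
  obtain ⟨l, hl⟩ := h0 n
  show (List.rec (motive := fun _ => List ℕ) [] (fun a _ _ => (Nat.mul c a) :: pw c n)
    (pw c n) : List ℕ) = _
  rw [hl]
  show (c * c ^ n) :: (c ^ n :: l) = _
  rw [pow_succ, mul_comm]

private theorem jf_zip (B : ℕ) (V : List ℕ) (n : ℕ) (hV : V.length ≤ n + 1) :
    zipF B V n = zipM V (pw (1 + 2 ^ B) n) := by
  induction V generalizing n with
  | nil => rfl
  | cons v V ih =>
    cases n with
    | zero =>
      have hV0 : V = [] := by
        rw [List.length_cons] at hV
        exact List.length_eq_zero_iff.1 (by omega)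
      subst hV0
      show [v] = [v * 1]
      rw [mul_one]
    | succ n =>
      rw [jf_pw_succ]
      show shP B v (n + 1) :: zipF B V n = v * (1 + 2 ^ B) ^ (n + 1) :: zipM V (pw (1 + 2 ^ B) n)
      rw [jf_shP, ih n (by rw [List.length_cons] at hV; omega)]

theorem rwF_eq (B m n : ℕ) {V : List ℕ} (hV : V.length ≤ n + 1) :
    rwF (pkOf B m n) V = rwOf (pkOf B m n) V := by
  unfold rwF rwOf
  have h : zipF (pkOf B m n).B V (pkOf B m n).n = zipM V (pkOf B m n).CU := jf_zip B V n hV
  rw [h]

private theorem jf_hor (a b S : ℕ) (W : List ℕ) : horF a b S W = horU (a + b * 2 ^ S) W := by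
  induction W with
  | nil => rfl
  | cons w W ih =>
    show w + mulS a b S (horF a b S W) = w + (a + b * 2 ^ S) * horU (a + b * 2 ^ S) W
    rw [jf_mulS, ih]

theorem tstF_eq (B m n : ℕ) (r : Rw) (s : Bool) (lo hi : ℕ) :
    tstF (pkOf B m n) r s lo hi = tst (pkOf B m n) r s (ivl (pkOf B m n) lo hi) := by
  have h : mulS lo hi (pkOf B m n).B (horF lo hi (pkOf B m n).B r.t) =
      Nat.mul (ivl (pkOf B m n) lo hi) (horU (ivl (pkOf B m n) lo hi) r.t) := by
    show mulS lo hi B (horF lo hi B r.t) = (lo + hi * 2 ^ B) * horU (lo + hi * 2 ^ B) r.t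
    rw [jf_mulS, jf_hor]
  unfold tstF tst
  rw [h]

theorem length_vOf (k : Pk) (G : List (List ℤ)) (a b : ℕ) : (vOf k G a b).length = G.length := by
  unfold vOf
  induction G with
  | nil => rfl
  | cons l G ih =>
    show (vrows k.M1 k.M2 (Nat.add a (Nat.mul b k.Ts)) k.CP G).length + 1 = G.length + 1
    rw [ih]

theorem length_zipM (V C : List ℕ) : (zipM V C).length = min V.length C.length := by
  induction V generalizing C with
  | nil => simp [zipM]
  | cons v V ih =>
    cases C with
    | nil => simp [zipM]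
    | cons c C =>
      show (zipM V C).length + 1 = _
      rw [ih]
      simp only [List.length_cons]
      omega

private theorem jf_evP_cons (c : ℤ) (l : List ℤ) (x : ℝ) :
    evP (c :: l) x = (c : ℝ) + x * evP l x := rfl

private theorem jf_evT_cons (l : List ℤ) (G : List (List ℤ)) (t u : ℝ) :
    evT (l :: G) t u = evP l t + u * evT G t u := rfl

private theorem jf_evP_nil (x : ℝ) : evP [] x = 0 := rfl

private theorem jf_evT_nil (t u : ℝ) : evT [] t u = 0 := rfl

private theorem jf_evP_smulP (k : ℤ) (l : List ℤ) (x : ℝ) : evP (smulP k l) x = k * evP l x := by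
  induction l with
  | nil => simp [smulP, jf_evP_nil]
  | cons c l ih =>
    have h : smulP k (c :: l) = (k * c) :: smulP k l := rfl
    rw [h, jf_evP_cons, jf_evP_cons, ih]
    push_cast
    ring

private theorem jf_evT_smul (k : ℤ) (G : List (List ℤ)) (t u : ℝ) :
    evT (G.map (smulP k)) t u = k * evT G t u := by
  induction G with
  | nil => simp [jf_evT_nil]
  | cons l G ih =>
    rw [List.map_cons, jf_evT_cons, jf_evT_cons, ih, jf_evP_smulP]
    ring

private theorem jf_evP_addP (p q : List ℤ) (x : ℝ) : evP (addP p q) x = evP p x + evP q x := by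
  induction p generalizing q with
  | nil =>
    have h : addP [] q = q := by cases q <;> rfl
    rw [h, jf_evP_nil, zero_add]
  | cons a p ih =>
    cases q with
    | nil => show evP (a :: p) x = _; rw [jf_evP_nil, add_zero]
    | cons b q =>
      show evP ((a + b) :: addP p q) x = _
      rw [jf_evP_cons, jf_evP_cons, jf_evP_cons, ih]
      push_cast
      ring

private theorem jf_evT_addT (p q : List (List ℤ)) (t u : ℝ) :
    evT (addT p q) t u = evT p t u + evT q t u := by
  induction p generalizing q with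
  | nil =>
    have h : addT [] q = q := by cases q <;> rfl
    rw [h, jf_evT_nil, zero_add]
  | cons a p ih =>
    cases q with
    | nil => show evT (a :: p) t u = _; rw [jf_evT_nil, add_zero]
    | cons b q =>
      show evT (addP a b :: addT p q) t u = _
      rw [jf_evT_cons, jf_evT_cons, jf_evT_cons, ih, jf_evP_addP]
      ring

theorem evT_wT (o : ℤ) (k : ℕ) (G : List (List ℤ)) (t u : ℝ) :
    evT (wT o k G) t u = 2 * (u - o) * evT (dU G) t u - k * evT G t u := by
  unfold wT
  rw [jf_evT_addT, jf_evT_addT, jf_evT_cons, jf_evT_smul, jf_evT_smul, jf_evT_smul, jf_evP_nil]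
  push_cast
  ring

private theorem jf_evZ (l : List ℤ) (a : ℤ) : ((evZ l a : ℤ) : ℝ) = evP l a := by
  induction l with
  | nil => simp [evZ, jf_evP_nil]
  | cons c l ih =>
    have h : evZ (c :: l) a = c + a * evZ l a := rfl
    rw [h, jf_evP_cons, ← ih]
    push_cast
    ring

theorem evT_atT (G : List (List ℤ)) (a : ℤ) (t u : ℝ) : evT (atT G a) t u = evT G a u := by
  unfold atT
  induction G with
  | nil => rfl
  | cons l G ih =>
    rw [List.map_cons, jf_evT_cons, jf_evT_cons, ih, jf_evP_cons, jf_evP_nil, jf_evZ]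
    ring

end Oct
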